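import Pool.Agent.H66.GUA.Targets

/-!
# Row CC of the board gua_modules: separating one side of the cube
-/

set_option autoImplicit false

open Finset Filter Topology

namespace Pool.Agent.H31.GUA

open Pool.Agent.H31.DP Pool.Agent.H31.DPD Pool.Agent.H66.GUA

private def ins {d : ℕ} (I : Finset (Fin d)) : Finset (Fin (d + 1)) :=
  insert 0 (I.map (Fin.succEmb d))

private def em {d : ℕ} (I : Finset (Fin d)) : Finset (Fin (d + 1)) := I.map (Fin.succEmb d)

private theorem sI_em {d : ℕ} (s₀ : ℤ) (z : Fin d → ℤ) (I : Finset (Fin d)) :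
    sI (cns s₀ z) (em I) = sI z I := by
  unfold sI em cns
  rw [Finset.sum_map]
  simp

private theorem sI_ins {d : ℕ} (s₀ : ℤ) (z : Fin d → ℤ) (I : Finset (Fin d)) :
    sI (cns s₀ z) (ins I) = s₀ + sI z I := by
  unfold sI ins cns
  rw [Finset.sum_insert (by simp [Fin.succ_ne_zero]), Finset.sum_map]
  simp

private theorem cases {d : ℕ} (A : Finset (Fin (d + 1))) :
    ∃ I : Finset (Fin d), A = em I ∨ A = ins I := by
  refine ⟨Finset.univ.filter (fun i : Fin d => i.succ ∈ A), ?_⟩
  by_cases h : (0 : Fin (d + 1)) ∈ A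
  · right
    unfold ins
    ext j
    refine Fin.cases ?_ (fun i => ?_) j
    · simp [h]
    · simp [Fin.succ_ne_zero]
  · left
    unfold em
    ext j
    refine Fin.cases ?_ (fun i => ?_) j
    · simp [h, Fin.succ_ne_zero]
    · simp

private theorem prod_split {d : ℕ} (G : Finset (Fin (d + 1)) → ℝ) :
    ∏ I : Finset (Fin (d + 1)), G I =
      (∏ I : Finset (Fin d), G (em I)) * ∏ I : Finset (Fin d), G (ins I) := by
  have h : (Finset.univ : Finset (Finset (Fin (d + 1)))) =
      (Finset.univ.image em) ∪ (Finset.univ.image ins) := by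
    ext A
    simp only [Finset.mem_univ, Finset.mem_union, Finset.mem_image, true_and, true_iff]
    obtain ⟨I, hI | hI⟩ := cases A
    · exact Or.inl ⟨I, hI.symm⟩
    · exact Or.inr ⟨I, hI.symm⟩
  have hd : Disjoint (Finset.univ.image (em (d := d))) (Finset.univ.image ins) := by
    rw [Finset.disjoint_left]
    intro A h1 h2
    simp only [Finset.mem_image, Finset.mem_univ, true_and] at h1 h2
    obtain ⟨I, rfl⟩ := h1
    obtain ⟨J, hJ⟩ := h2
    have : (0 : Fin (d + 1)) ∈ em I := by
      rw [← hJ]
      simp [ins]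
    simp [em, Fin.succ_ne_zero] at this
  have i1 : Function.Injective (em (d := d)) := by
    intro I J h
    exact Finset.map_injective _ h
  have i2 : Function.Injective (ins (d := d)) := by
    intro I J h
    apply i1
    have h0 : ∀ K : Finset (Fin d), (0 : Fin (d + 1)) ∉ em K := by
      intro K
      simp [em, Fin.succ_ne_zero]
    have h1 : (ins I).erase 0 = (ins J).erase 0 := by rw [h]
    have h2 : ∀ K : Finset (Fin d), (ins K).erase 0 = em K := by
      intro K
      exact Finset.erase_insert (h0 K)
    rw [h2, h2] at h1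
    exact h1
  rw [h, Finset.prod_union hd, Finset.prod_image (fun _ _ _ _ h => i1 h),
    Finset.prod_image (fun _ _ _ _ h => i2 h)]

theorem pf_CC : T_CC := by
  intro d l h p M s₀ z y
  constructor
  · unfold IC
    simp only [Finset.mem_filter, Finset.mem_Icc]
    constructor
    · rintro ⟨h1, h2⟩
      have he := fun I => h2 (em I)
      have hi := fun I => h2 (ins I)
      simp only [sI_em] at he
      simp only [sI_ins] at hi
      have h3 := hi ∅
      simp only [sI, Finset.sum_empty, add_zero] at h3
      refine ⟨⟨h1, he⟩, h3, fun I => ?_⟩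
      have h4 := hi I
      rw [← add_assoc] at h4
      exact h4
    · rintro ⟨⟨h1, h2⟩, h3, h4⟩
      refine ⟨h1, fun A => ?_⟩
      obtain ⟨I, rfl | rfl⟩ := cases A
      · rw [sI_em]
        exact h2 I
      · rw [sI_ins, ← add_assoc]
        exact h4 I
  · unfold GC
    rw [prod_split]
    simp only [sI_em, sI_ins, add_assoc]

end Pool.Agent.H31.GUA
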